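import Pool.Agent.V5helper60.GM.Fld7

/-!
# `p`-ranks in the cyclotomic `ℤ_p`-extension of an arbitrary number field: concavity and `μ = 0`

For a number field `E` let `d(E)` be the order of `Cl(E) / p`, the largest degree of an unramified
elementary abelian `p`-extension of `E`. Let `K` be any number field whose primes above `p` are totally
ramified in the cyclotomic `ℤ_p`-extension of `K`. For a layer `R` of the cyclotomic `ℤ_p`-extension of `ℚ`
let `q(R) = [K R : K]` and `d(K R) = p ^ ρ(R)`. Then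

* `ρ` does not decrease, and it is a concave function of `q`: for layers `R₀ ≤ R ≤ R'`,
  `(ρ(R') - ρ(R)) / (q(R') - q(R)) ≤ (ρ(R) - ρ(R₀)) / (q(R) - q(R₀))`;
* if `ρ(R) - ρ(R₀) < (s + 1) (q(R) - q(R₀))` for an integer `s`, then
  `ρ(R') - ρ(R) ≤ s (q(R') - q(R))` for all `R' ≥ R`. (For `s = 0` and `ρ(R) = ρ(R₀)` this is
  Fukuda's criterion.)

Let `N` be the number of positive `m_i` in the structure of the Iwasawa module of `K`, so that
`d(K R) = p ^ (N q(R) + O(1))`. Then `N ≤ s` if and only if `ρ(R) - ρ(R₀) < (s + 1) (q(R) - q(R₀))` for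
one pair of layers `R₀ ≤ R`, and also if and only if for every `R₀` this holds for all `R` of large
degree. As soon as this holds with `s = N`, the formula is exact: `ρ(R') - ρ(R) = N (q(R') - q(R))` for all
`R' ≥ R`. In particular `μ = 0` for `K` if and only if `ρ(R) - ρ(R₀) < q(R) - q(R₀)` for one pair of layers.

There is no condition on `K` besides the one on the ramification, and this condition is satisfied
for `K R₁` for every number field `K` and every layer `R₁` of large degree, while `μ = 0` for `K R₁` if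
and only if `μ = 0` for `K`. In the case of Q1, where `K` is a finite abelian extension of a quadratic
field `k`, and more generally if `K / k` is Galois, one can take for `R₁` the layer whose degree is
the largest power of `p` which divides `2 [K : k]`. So `μ = 0` for `K` as soon as one pair of layers above
`R₁` has growth less than `q(R) - q(R₀)`, and this is also necessary.

Proof. Let `V` be the group of a maximal unramified elementary abelian `p`-extension of `K R'` which is
Galois over `K`, `γ` an element of an inertia group above `p` which generates `Gal(K R'/K)`, and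
`φ = γ - 1`. The inertia groups are generated by elements `a γ`, modulo inertia groups in `V`. Let `Y` be
the submodule of `V` generated by `φ V` and the `a`. As `(a γ) ^ q γ ^ (-q) = φ ^ (q - 1) a` for `q` a
power of `p`, the group `Cl(K R) / p` corresponds to `V / φ ^ (q - 1) Y`. The orders of the quotients of the
chain `φ ^ j Y`, `j = 0, 1, …`, do not increase, as `φ` maps each of them onto the next one.
-/

set_option autoImplicit false

namespace Pool.Agent.Results.MP_b78433_nt.AllNumberFields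

open IntermediateField Module Pool.Agent.Q60.MU Pool.Agent.W5h77.MB
open Pool.Agent.V5helper60.GM

/-- The degree over `ℚ`. -/
noncomputable def deg (K : IntermediateField ℚ Qb) : ℕ := finrank ℚ K

/-- `d(K R)` does not decrease if the layer `R` grows. -/
def Increasing (p : ℕ) (ι : Qb →+* ℂ) (K : IntermediateField ℚ Qb) : Prop :=
  ∀ R₀ R q₀ c₀ q c, Layers p ι R₀ R → Value p K R₀ q₀ c₀ → Value p K R q c → c₀ ≤ c

/-- The logarithm of `d(K R)` is a concave function of `[K R : K]`:
`c' ^ (q - q₀) c₀ ^ (q' - q) ≤ c ^ (q' - q₀)`. -/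
def Concave (p : ℕ) (ι : Qb →+* ℂ) (K : IntermediateField ℚ Qb) : Prop :=
  ∀ R₀ R R' q₀ c₀ q c q' c', Layers p ι R₀ R → Layers p ι R R' →
    Value p K R₀ q₀ c₀ → Value p K R q c → Value p K R' q' c' →
      c' ^ (q - q₀) * c₀ ^ (q' - q) ≤ c ^ (q' - q₀)

/-- If the growth from `R₀` to `R` is less than `(s + 1) (q - q₀)`, then the growth from `R` to `R'` is
at most `s (q' - q)`. -/
def GrowthAbove (p : ℕ) (ι : Qb →+* ℂ) (K : IntermediateField ℚ Qb) : Prop :=
  ∀ s R₀ R R' q c q', Layers p ι R₀ R → Layers p ι R R' → RankGrowthLt p K (s + 1) R₀ R →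
    Value p K R q c → DegreeOver K R' q' → ∃ c', DegIs p (K ⊔ R') c' ∧ c' ≤ p ^ (s * (q' - q)) * c

/-- `N ≤ s` if and only if the growth is less than `(s + 1) (q - q₀)` for one pair of layers, if and only
if for every `R₀` this holds for all large `R`. -/
def Criterion (p : ℕ) (ι : Qb →+* ℂ) (K : IntermediateField ℚ Qb) : Prop :=
  ∀ s : ℕ,
    (RateLe p ι K K s ↔ ∃ R₀ R, Layers p ι R₀ R ∧ RankGrowthLt p K (s + 1) R₀ R) ∧
    (RateLe p ι K K s ↔ ∀ R₀, Layers p ι R₀ R₀ → ∃ N, ∀ R q, Layers p ι R₀ R →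
      DegreeOver K R q → N ≤ q → RankGrowthLt p K (s + 1) R₀ R)

/-- If `N = s` and the growth from `R₀` to `R` is less than `(s + 1) (q - q₀)`, then the growth from `R` to
`R'` is exactly `s (q' - q)`. -/
def Exact (p : ℕ) (ι : Qb →+* ℂ) (K : IntermediateField ℚ Qb) : Prop :=
  ∀ s, RateLe p ι K K s → (∀ s' < s, ¬ RateLe p ι K K s') →
    ∀ R₀ R R' q c q' c', Layers p ι R₀ R → Layers p ι R R' → RankGrowthLt p K (s + 1) R₀ R →
      Value p K R q c → Value p K R' q' c' → c' = p ^ (s * (q' - q)) * c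

theorem result (p : ℕ) (hp : p.Prime) (ι : Qb →+* ℂ) :
    (∀ K : IntermediateField ℚ Qb, FiniteDimensional ℚ K → TotRam p ι K →
      Increasing p ι K ∧ Concave p ι K ∧ GrowthAbove p ι K ∧ Criterion p ι K ∧ Exact p ι K ∧
      (MuVanishes p ι K ↔ ∃ R₀ R, Layers p ι R₀ R ∧ RankGrowthLt p K 1 R₀ R)) ∧
    (∀ K : IntermediateField ℚ Qb, FiniteDimensional ℚ K →
      ∃ s, (∃ R₁, RealLayer p ι s R₁) ∧ ∀ R₁, RealLayer p ι s R₁ →
        TotRam p ι (K ⊔ R₁) ∧ (MuVanishes p ι (K ⊔ R₁) ↔ MuVanishes p ι K)) ∧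
    (∀ k K : IntermediateField ℚ Qb, FiniteDimensional ℚ K → deg k = 2 → GaloisOver k K →
      ∀ d n s : ℕ, deg K = d * deg k → ¬ p ∣ n → 2 * d = n * p ^ s →
        ∀ R₁, RealLayer p ι s R₁ →
          TotRam p ι (K ⊔ R₁) ∧ (MuVanishes p ι (K ⊔ R₁) ↔ MuVanishes p ι K)) := by
  have hpf : Fact p.Prime := ⟨hp⟩
  refine ⟨?_, ?_, ?_⟩
  · intro K hfK hram
    have hcr := fun s => k_criterion (K := K) hram s
    refine ⟨fun R₀ R q₀ c₀ q c h hv₀ hv => k_mono hram h hv₀ hv,
      fun R₀ R R' q₀ c₀ q c q' c' h h' hv₀ hv hv' => k_conc hram h h' hv₀ hv hv',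
      fun s R₀ R R' q c q' h1 h2 hg hv hq' => k_above hram h1 h2 hg hv hq', hcr, ?_,
      (rate_zero (p := p) (ι := ι) (le_refl K)).symm.trans (hcr 0).1⟩
    intro s hs hmin R₀ R R' q c q' c' h1 h2 hg hv hv'
    have h2' := h2
    obtain ⟨⟨m, hR⟩, ⟨m', hR'⟩, -⟩ := h2'
    have hfR := layer_fd hp hR.1
    have hfR' := layer_fd hp hR'.1
    refine le_antisymm (hv'.2.le ?_) (not_lt.1 fun hlt => ?_)
    · rw [mul_comm]
      exact k_above_raw hram h1 h2 hg hv hv'.1
    · rcases Nat.eq_zero_or_pos s with h0 | h0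
      · subst h0
        rw [zero_mul, pow_zero, one_mul] at hlt
        exact absurd (k_mono hram h2 hv hv') (not_le.2 hlt)
      · obtain ⟨t, rfl⟩ : ∃ t, s = t + 1 := ⟨s - 1, by omega⟩
        exact hmin t (Nat.lt_succ_self t) (k_rate_of_pair hram h2 ⟨q, c, q', c', hv, hv', hlt⟩)
  · intro K hfK
    obtain ⟨s, hs⟩ := k_totRam hp ι K
    exact ⟨s, exists_realLayer ι s, hs⟩
  · intro k K hfK hk hG d n s hd hn hns R₁ hR₁
    exact ⟨k_quadratic hp ι hk hG hd hn hns R₁ hR₁, muVanishes_sup hR₁⟩

end Pool.Agent.Results.MP_b78433_nt.AllNumberFields
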