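import Pool.Agent.V5helper60.GM.Asm3

/-!
# `μ = 0` for abelian extensions of imaginary quadratic fields: a criterion in one layer, for all primes

Let `p` be a prime number (`p = 2` is allowed), `k` an imaginary quadratic field and `K / k` a finite
abelian extension of degree prime to `p`; `K` need not be Galois over `ℚ`. By Iwasawa's theorem on
`p`-extensions it is enough for Q1 to consider such `K`. Let `F` be a field between `k` and `K`, for
example the largest one which is abelian over `ℚ`, for which `μ = 0` by Ferrero and Washington, or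
`F = k`. For a number field `E` let `d(E)` be the order of `Cl(E) / p`. Let `r` be such that every
representation of `Gal(K / k)` over `F_p` of dimension less than `r` is trivial on `Gal(K / F)`; for
example no prime divisor of `[K : F]` divides `p ^ j - 1` for some `0 < j < r`. Let `t` be `2`, or `1` if `p`
is odd and there is only one prime of `k` above `p`. Let `R` be the layer of degree `p ^ m` of the
cyclotomic `ℤ_p`-extension of `ℚ`. If

`d(K R) / d(F R) < p ^ (r (p ^ m - t))`,

that is, if the `p`-rank of the class group of `K R` exceeds the one of `F R` by less than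
`r (p ^ m - t)`, then `d(K R') ≤ p ^ [K : ℚ] d(K R) / d(F R) d(F R')` for all layers `R'` which contain `R`.
Conversely, this inequality holds for all layers of large degree if `μ = 0` for `K`. So `μ = 0` for `K` if
and only if `μ = 0` for `F` and the inequality holds for one layer.

Proof. Let `V` be the group of a maximal unramified elementary abelian `p`-extension of `K R'` which is
Galois over `k`, `G` the Galois group of `K R' / k R'`, an abelian group of order prime to `p`, `U` the
part of `V` fixed by the group of `F R'`, `φ = γ - 1`, where `γ` generates the group of `K R' / K`, and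
`q = p ^ m`. If `φ ^ (q - 1) V` is not contained in `U`, there is a quotient `V / P` with a filtration by
powers of `φ` with `q` quotients isomorphic to one simple `G`-module `W` of order `w`, on which the group
of `F R'` acts nontrivially, so `w ≥ p ^ r`. All primes above `p` are conjugate over `R'`, so there are at
most two orbits over `k R'`, represented by `t` primes; modulo `P` the inertia groups at these primes
are generated by one element each, modulo the inertia groups in the extension of `K R'`, and each of
these elements contributes a submodule of order at most `w`. So `Cl(K R) / p` has a quotient of order at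
least `w ^ (q - t)` which is not seen by `F R`. In the other case the order of `V / U` is bounded.
-/

set_option autoImplicit false

namespace Pool.Agent.Results.MP_b78433_nt.AllPrimesCriterion

open IntermediateField Module Pool.Agent.Q60.MU Pool.Agent.W5h77.MB
open Pool.Agent.V5helper60.GM

/-- The degree over `ℚ`. -/
noncomputable def deg (K : IntermediateField ℚ Qb) : ℕ := finrank ℚ K

/-- `k` is an imaginary quadratic field. -/
def IsImaginaryQuadratic (ι : Qb →+* ℂ) (k : IntermediateField ℚ Qb) : Prop :=
  deg k = 2 ∧ ¬ k ≤ realSub ι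

/-- `K` is a finite abelian extension of `k`. -/
def IsAbelianOver (k K : IntermediateField ℚ Qb) : Prop :=
  FiniteDimensional ℚ K ∧ k ≤ K ∧ ∀ σ ∈ k.fixingSubgroup, ∀ τ ∈ k.fixingSubgroup, ∀ x ∈ K,
    σ (τ x) = τ (σ x)

/-- `p` does not divide `[K : k]`. -/
def PrimeToP (p : ℕ) (k K : IntermediateField ℚ Qb) : Prop :=
  ∃ n, deg K = n * deg k ∧ ¬ p ∣ n

/-- Every representation of the absolute Galois group of `k` over `F_p` of dimension `n < r` which is
trivial on the group of `K` is trivial on the group of `F`. -/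
def SmallTrivial (p r : ℕ) (k F K : IntermediateField ℚ Qb) : Prop :=
  KillsSmall p r k.fixingSubgroup (K.fixingSubgroup.subgroupOf k.fixingSubgroup)
    (F.fixingSubgroup.subgroupOf k.fixingSubgroup)

/-- No prime divisor of `[K : F]` divides `p ^ j - 1` for some `0 < j < r`. -/
def NoPrime (p : ℕ) (F K : IntermediateField ℚ Qb) (r : ℕ) : Prop :=
  ∀ n l j : ℕ, deg K = n * deg F → l.Prime → l ∣ n → 0 < j → j < r → ¬ l ∣ p ^ j - 1

/-- `d(K R') ≤ N d(F R')` for all layers `R'` which contain `R`. -/
def BoundAbove (p : ℕ) (ι : Qb →+* ℂ) (F K R : IntermediateField ℚ Qb) (N : ℕ) : Prop :=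
  ∀ (m' : ℕ) (R' : IntermediateField ℚ Qb) (T : ℕ), RealLayer p ι m' R' → R ≤ R' →
    DegLe p (F ⊔ R') T → DegLe p (K ⊔ R') (N * T)

/-- `μ = 0` for `K` if and only if `μ = 0` for `F` and `P` holds for one layer `R` (of degree `p ^ m`); and
if and only if `μ = 0` for `F` and `P` holds for all layers of large degree. -/
def Criterion (p : ℕ) (ι : Qb →+* ℂ) (F K : IntermediateField ℚ Qb)
    (P : ℕ → IntermediateField ℚ Qb → Prop) : Prop :=
  (MuVanishes p ι K ↔ MuVanishes p ι F ∧ ∃ m R, RealLayer p ι m R ∧ P m R) ∧
  (MuVanishes p ι K ↔ MuVanishes p ι F ∧ ∃ m₀, ∀ m ≥ m₀, ∀ R, RealLayer p ι m R → P m R)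

theorem result (p : ℕ) (hp : p.Prime) (ι : Qb →+* ℂ) (k F K : IntermediateField ℚ Qb)
    (hk : IsImaginaryQuadratic ι k) (hK : IsAbelianOver k K) (hF : k ≤ F ∧ F ≤ K)
    (hpK : PrimeToP p k K) :
    (∀ r t : ℕ, 0 < r → SmallTrivial p r k F K → PrimesLe p k t →
      (∀ m R C E, RealLayer p ι m R → GapOver p F K r t m R C E →
        BoundAbove p ι F K R (C * p ^ deg K / (E + 1))) ∧
      Criterion p ι F K (fun m R => ∃ C E, GapOver p F K r t m R C E)) ∧
    (∀ r : ℕ, NoPrime p F K r → SmallTrivial p r k F K) := by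
  have hpf : Fact p.Prime := ⟨hp⟩
  obtain ⟨hk2, hki⟩ := hk
  obtain ⟨hfK, hkK, hab⟩ := hK
  obtain ⟨hkF, hFK⟩ := hF
  have hfF : FiniteDimensional ℚ F := Pool.Agent.W5h33.DF.fd_of_le hFK
  have hfk : FiniteDimensional ℚ k := Pool.Agent.W5h33.DF.fd_of_le hkK
  have hidx : ∀ (M : IntermediateField ℚ Qb) (_ : FiniteDimensional ℚ M),
      deg M = M.fixingSubgroup.index := fun M _ => finrank_eq_fixingSubgroup_index Qb M
  have hrel : ¬ p ∣ K.fixingSubgroup.relIndex k.fixingSubgroup := by
    obtain ⟨n, hn, hpn⟩ := hpK
    have h1 := Subgroup.relIndex_mul_index (fixingSubgroup_le hkK)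
    rw [← hidx K hfK, ← hidx k hfk, hn] at h1
    have h2 : 0 < deg k := by rw [hk2]; norm_num
    rwa [Nat.eq_of_mul_eq_mul_right h2 h1]
  refine ⟨fun r t hr0 hr ht => ?_, fun r h => ?_⟩
  · have hbd : ∀ m R C E, RealLayer p ι m R → GapOver p F K r t m R C E →
        BoundAbove p ι F K R (C * p ^ deg K / (E + 1)) := by
      rintro m R C E hR ⟨h1, h2, h3⟩ m' R' T hR' hRR hT
      exact gap_over ι hk2 hki hkF hFK hab hrel hr ht hR.1 hR.2 hR'.1 hR'.2 hRR h1 h2 h3 hT
    have h3 : ∀ m R, RealLayer p ι m R → (∃ C E, GapOver p F K r t m R C E) →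
        MuVanishes p ι F → MuVanishes p ι K := by
      rintro m R hR ⟨C, E, hCE⟩ ⟨T, hT⟩
      exact muVanishes_of_above hR
        ⟨_, fun m' R' hR' hRR => hbd m R C E hR hCE m' R' T hR' hRR (hT m' R' hR')⟩
    refine ⟨hbd, ⟨fun h => ⟨muVanishes_down hFK h, ?_⟩, ?_⟩,
      ⟨fun h => ⟨muVanishes_down hFK h, gapOver_of_mu hFK t hr0 h⟩, ?_⟩⟩
    · obtain ⟨m₀, hm₀⟩ := gapOver_of_mu hFK t hr0 h
      obtain ⟨R, hR⟩ := exists_realLayer (p := p) ι m₀
      exact ⟨m₀, R, hR, hm₀ m₀ le_rfl R hR⟩
    · rintro ⟨h, m, R, hR, hP⟩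
      exact h3 m R hR hP h
    · rintro ⟨h, m₀, hm₀⟩
      obtain ⟨R, hR⟩ := exists_realLayer (p := p) ι m₀
      exact h3 m₀ R hR (hm₀ m₀ le_rfl R hR) h
  · have hcomm := comm_mem_fix (k := k) (K := K) hab
    have hcK : commutator k.fixingSubgroup ≤ K.fixingSubgroup.subgroupOf k.fixingSubgroup := by
      rw [commutator_def, Subgroup.commutator_le]
      exact fun a _ b _ => hcomm a a.2 b b.2
    have hKn : (K.fixingSubgroup.subgroupOf k.fixingSubgroup).Normal :=
      Pool.Agent.W5h33.DF.normal_of_comm hcK
    apply killsSmall_of_prime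
    have h1 := Subgroup.relIndex_subgroupOf (H := K.fixingSubgroup) (fixingSubgroup_le hkF)
    have h2 := Subgroup.relIndex_mul_index (fixingSubgroup_le hFK)
    rw [← hidx K hfK, ← hidx F hfF] at h2
    rw [h1]
    intro l hl hdvd
    refine ⟨?_, fun j hj hjr => h _ l j h2.symm hl hdvd hj hjr⟩
    rintro rfl
    apply hrel
    have h3 := Subgroup.relIndex_mul_relIndex _ _ _ (fixingSubgroup_le hFK) (fixingSubgroup_le hkF)
    rw [← h3]
    exact hdvd.mul_right _

end Pool.Agent.Results.MP_b78433_nt.AllPrimesCriterion
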