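import Pool.Agent.V5helper60.GM.Asm8

/-!
# Relative `p`-ranks in cyclotomic `ℤ_p`-extensions: concavity, stabilization, and the number of positive `m_i`

For a number field `E` let `d(E)` be the order of `Cl(E) / p`, the largest degree of an unramified
elementary abelian `p`-extension of `E`. Let `B ≤ F ≤ K` be number fields, `K / B` and `F / B` Galois,
`p` prime to `[K : B]`, and let all primes of `K` above `p` be totally ramified in the cyclotomic
`ℤ_p`-extension of `K`. Let `r` be such that all representations of `Gal(K / B)` over `F_p` of dimension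
less than `r` are trivial on `Gal(K / F)`. For a layer `R` of the cyclotomic `ℤ_p`-extension of `ℚ` let
`q(R) = [B R : B]`, and let `ρ(R)` be the relative `p`-rank, `p ^ ρ(R) = d(K R) / d(F R)`. Then

* `ρ` does not decrease, and it is a concave function of `q`: for layers `R₀ ≤ R ≤ R'`,
  `(ρ(R') - ρ(R)) / (q(R') - q(R)) ≤ (ρ(R) - ρ(R₀)) / (q(R) - q(R₀))`;
* if `ρ(R) - ρ(R₀) < g (q(R) - q(R₀))` for an integer `g`, then
  `ρ(R') - ρ(R) ≤ (g - 1) (q(R') - q(R))` for all `R' ≥ R`;
* if `ρ(R) - ρ(R₀) < r (q(R) - q(R₀))`, then `ρ` is constant from `R` on. (For `r = 1`, `F = ℚ` and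
  `ρ(R) = ρ(R₀)` this is Fukuda's criterion for `K`.)

Let `N` be the number of positive `m_i` in the structure of the Iwasawa module of `K`, so that
`d(K R) = p ^ (N q(R) + O(1))`, and let `μ = 0` for `F`. Then `N ≤ s` if and only if
`ρ(R) - ρ(R₀) < (s + 1) (q(R) - q(R₀))` for one pair of layers `R₀ ≤ R`, and also if and only if for every
`R₀` this holds for all `R` of large degree; and `N` is `0` or at least `r`. In particular `μ = 0` for `K` if and
only if `μ = 0` for `F` and `ρ(R) - ρ(R₀) < r (q(R) - q(R₀))` for one pair of layers.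

This applies to Q1: by Iwasawa's theorem on `p`-extensions it is enough to consider the abelian
extensions `K` of `k` of degree prime to `p`. If `p` is odd, one can take `B = k` and for `F` any field
between `k` and `K`, for example the largest one which is abelian over `ℚ`, for which `μ = 0` by Ferrero and
Washington. For `p = 2` the conditions are satisfied for `B = k R₁`, `F R₁` and `K R₁`, where
`R₁ = ℚ(√2)`. If `K` is Galois over `ℚ` and `p` is prime to `[K : ℚ]`, one can also take `B = ℚ` and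
`F = K^ab`, the largest subfield of `K` which is abelian over `ℚ`, and then `r = 2` at least.

Proof. Let `V` be the group of a maximal unramified elementary abelian `p`-extension of `K R'` which is
Galois over `B`, `γ` an element of an inertia group above `p` which generates `Gal(K R'/K)`, and
`φ = γ - 1`. The inertia groups are generated by elements `a γ`, modulo inertia groups in `V`. Let `Y` be
the submodule of `V` generated by `φ V` and the `a`. As `(a γ) ^ q γ ^ (-q) = φ ^ (q - 1) a` for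
`q` a power of `p`, the group `Cl(K R) / p` corresponds to `V / φ ^ (q - 1) Y`, and `V = U ⊕ X`, where `U`
is the part fixed by the group of `F R'`, so that the order of `V / (U + φ ^ (q - 1) Y)` is `d(K R) / d(F R)`.
The orders of the quotients of the chain `U + φ ^ j Y`, `j = 0, 1, …`, do not increase, as `φ` maps each
of them onto the next one, and each nonzero quotient is a representation of `Gal(K / B)` which is
nontrivial on `Gal(K / F)`, so its order is at least `p ^ r`.
-/

set_option autoImplicit false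

namespace Pool.Agent.Results.MP_b78433_nt.RankStabilization

open IntermediateField Module Pool.Agent.Q60.MU Pool.Agent.W5h77.MB
open Pool.Agent.V5helper60.GM

/-- The degree over `ℚ`. -/
noncomputable def deg (K : IntermediateField ℚ Qb) : ℕ := finrank ℚ K

/-- `B ≤ F ≤ K` are number fields, `K / B` and `F / B` are Galois, `p` does not divide `[K : B]`, and the
primes of `K` above `p` are totally ramified in the cyclotomic `ℤ_p`-extension of `K`. -/
structure Setting (p : ℕ) (ι : Qb →+* ℂ) (B F K : IntermediateField ℚ Qb) : Prop where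
  finite : FiniteDimensional ℚ K
  galK : GaloisOver B K
  galF : GaloisOver B F
  le : F ≤ K
  coprime : CoprimeDegree p B K
  ram : TotRam p ι K

/-- Every representation of the absolute Galois group of `B` over `F_p` of dimension `n < r` which is
trivial on the group of `K` is trivial on the group of `F`. -/
def SmallTrivial (p r : ℕ) (B F K : IntermediateField ℚ Qb) : Prop :=
  RepsTrivial p r B.fixingSubgroup (K.fixingSubgroup.subgroupOf B.fixingSubgroup)
    (F.fixingSubgroup.subgroupOf B.fixingSubgroup)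

/-- No prime divisor of `[K : F]` divides `p ^ j - 1` for some `0 < j < r`. -/
def NoPrime (p : ℕ) (F K : IntermediateField ℚ Qb) (r : ℕ) : Prop :=
  ∀ n l j : ℕ, deg K = n * deg F → l.Prime → l ∣ n → 0 < j → j < r → ¬ l ∣ p ^ j - 1

/-- The quotient `d(K R) / d(F R)` does not decrease if the layer `R` grows. -/
def Increasing (p : ℕ) (ι : Qb →+* ℂ) (B F K : IntermediateField ℚ Qb) : Prop :=
  ∀ R₀ R q₀ c₀ e₀ q c e, Layers p ι R₀ R → Values p B F K R₀ q₀ c₀ e₀ → Values p B F K R q c e →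
    c₀ * e ≤ c * e₀

/-- The logarithm of `d(K R) / d(F R)` is a concave function of `[B R : B]`:
`(c'/e') ^ (q - q₀) (c₀/e₀) ^ (q' - q) ≤ (c/e) ^ (q' - q₀)`. -/
def Concave (p : ℕ) (ι : Qb →+* ℂ) (B F K : IntermediateField ℚ Qb) : Prop :=
  ∀ R₀ R R' q₀ c₀ e₀ q c e q' c' e', Layers p ι R₀ R → Layers p ι R R' →
    Values p B F K R₀ q₀ c₀ e₀ → Values p B F K R q c e → Values p B F K R' q' c' e' →
      c' ^ (q - q₀) * c₀ ^ (q' - q) * e ^ (q' - q₀) ≤ c ^ (q' - q₀) * e' ^ (q - q₀) * e₀ ^ (q' - q)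

/-- If the growth from `R₀` to `R` is less than `g (q - q₀)`, then the growth from `R` to `R'` is at most
`s (q' - q)`, where `s = g - 1`, and `s = 0` if `g ≤ r`. -/
def GrowthAbove (p : ℕ) (ι : Qb →+* ℂ) (B F K : IntermediateField ℚ Qb) (r : ℕ) : Prop :=
  ∀ g s R₀ R R' q c e q' e', Layers p ι R₀ R → Layers p ι R R' → GrowthLt p B F K g R₀ R →
    (g ≤ s + 1 ∨ g ≤ r) → Values p B F K R q c e → DegreeOver B R' q' → DegIs p (F ⊔ R') e' →
      ∃ c', DegIs p (K ⊔ R') c' ∧ c' * e ≤ p ^ (s * (q' - q)) * (c * e')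

/-- `μ = 0` for `K` if and only if `μ = 0` for `F` and the growth is less than `r (q - q₀)` for one pair of
layers. If `μ = 0` for `F`, then `N ≤ s` if and only if the growth is less than `(s + 1) (q - q₀)` for one
pair of layers, if and only if for every `R₀` this holds for all large `R`; and `N < r` only for `μ = 0`. -/
def Criterion (p : ℕ) (ι : Qb →+* ℂ) (B F K : IntermediateField ℚ Qb) (r : ℕ) : Prop :=
  (0 < r → (MuVanishes p ι K ↔ MuVanishes p ι F ∧
    ∃ R₀ R, Layers p ι R₀ R ∧ GrowthLt p B F K r R₀ R)) ∧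
  (MuVanishes p ι F → ∀ s : ℕ,
    (RateLe p ι B K s ↔ ∃ R₀ R, Layers p ι R₀ R ∧ GrowthLt p B F K (s + 1) R₀ R) ∧
    (RateLe p ι B K s ↔ ∀ R₀, Layers p ι R₀ R₀ → ∃ N, ∀ R q, Layers p ι R₀ R →
      DegreeOver B R q → N ≤ q → GrowthLt p B F K (s + 1) R₀ R) ∧
    (s < r → (RateLe p ι B K s ↔ MuVanishes p ι K)))

/-- `K` is a finite abelian extension of the quadratic field `k`, `p` does not divide `[K : k]`, and
`k ≤ F ≤ K`. -/
def AbelianOverQuadratic (p : ℕ) (k F K : IntermediateField ℚ Qb) : Prop :=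
  FiniteDimensional ℚ K ∧ deg k = 2 ∧ k ≤ F ∧ F ≤ K ∧ CoprimeDegree p k K ∧
    ∀ σ ∈ k.fixingSubgroup, ∀ τ ∈ k.fixingSubgroup, ∀ x ∈ K, σ (τ x) = τ (σ x)

/-- `K` is a finite Galois extension of `ℚ` of degree prime to `p`. -/
def GaloisOverQ (p : ℕ) (K : IntermediateField ℚ Qb) : Prop :=
  FiniteDimensional ℚ K ∧ IsGalois ℚ K ∧ ¬ p ∣ deg K

theorem result (p : ℕ) (hp : p.Prime) (ι : Qb →+* ℂ) :
    (∀ B F K : IntermediateField ℚ Qb, Setting p ι B F K →
      Increasing p ι B F K ∧ Concave p ι B F K ∧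
      ∀ r : ℕ, (NoPrime p F K r → SmallTrivial p r B F K) ∧
        (SmallTrivial p r B F K → GrowthAbove p ι B F K r ∧ Criterion p ι B F K r)) ∧
    (∀ k F K : IntermediateField ℚ Qb, AbelianOverQuadratic p k F K →
      (p ≠ 2 → Setting p ι k F K) ∧
        ∀ R₁, RealLayer p ι 1 R₁ → Setting p ι (k ⊔ R₁) (F ⊔ R₁) (K ⊔ R₁) ∧
          (MuVanishes p ι (K ⊔ R₁) ↔ MuVanishes p ι K)) ∧
    (∀ K : IntermediateField ℚ Qb, GaloisOverQ p K →
      Setting p ι ⊥ (abPart K) K ∧ SmallTrivial p 2 ⊥ (abPart K) K) := by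
  have hpf : Fact p.Prime := ⟨hp⟩
  refine ⟨?_, ?_, ?_⟩
  · intro B F K S
    obtain ⟨hfK, hK, hF, hFK, hc, hram⟩ := S
    have hKn := normal_of_galoisOver hK
    have hFn := normal_of_galoisOver hF
    have hKp := index_of_coprime hK.1 hc
    refine ⟨?_, ?_, fun r => ⟨fun h => killsSmall_prime hF.1 hFK hK hc h, fun hr => ⟨?_, ?_⟩⟩⟩
    · rintro R₀ R q₀ c₀ e₀ q c e ⟨⟨m₀, hR₀⟩, ⟨m, hR⟩, hle⟩ ⟨-, hc₀, he₀⟩ ⟨-, hc, he⟩
      exact mono_deg hF.1 hFK hKn hFn hKp hram hR₀ hR hle hc₀ he₀ hc he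
    · rintro R₀ R R' q₀ c₀ e₀ q c e q' c' e' ⟨⟨m₀, hR₀⟩, ⟨m, hR⟩, hle₀⟩ ⟨-, ⟨m', hR'⟩, hle⟩
        ⟨hq₀, hc₀, he₀⟩ ⟨hq, hc, he⟩ ⟨hq', hc', he'⟩
      exact conc_field hF.1 hFK hKn hFn hKp hram hR₀ hR hR' hle₀ hle hq₀ hq hq' hc₀ he₀ hc he hc' he'
    · intro g s R₀ R R' q c e q' e' h1 h2 hg hgs hv hq' he'
      exact above_deg hK hF hFK hc hram hr h1 h2 hg hgs hv hq' he'
    · exact criterion8 hK hF hFK hc hram hr
  · intro k F K hK
    obtain ⟨hfK, hk, hkF, hFK, hc, hab⟩ := hK
    have hGK := galoisOver_of_abelian (hkF.trans hFK) le_rfl hab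
    have hGF := galoisOver_of_abelian hkF hFK hab
    refine ⟨fun hp2 => ⟨hfK, hGK, hGF, hFK, hc, ram_quadratic hp2 hk hGK hc⟩, fun R₁ hR₁ => ⟨⟨?_,
      galoisOver_sup hR₁ hGK, galoisOver_sup hR₁ hGF, sup_le_sup_right hFK R₁,
      coprime_sup hR₁ hGK hc, ram_quadratic_sup hk hGK hc hR₁⟩, muVanishes_sup hR₁⟩⟩
    have hfR := layer_fd hp hR₁.1
    infer_instance
  · rintro K ⟨hfK, hgK, hpK⟩
    obtain ⟨hGK, hGF⟩ := galois_bot (K := K)
    obtain ⟨hcop, hram⟩ := ram_bot (p := p) (ι := ι) (K := K) hpK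
    exact ⟨⟨hfK, hGK, hGF, abPart_le K, hcop, hram⟩, killsSmall_abPart (noSmall_two p K)⟩

end Pool.Agent.Results.MP_b78433_nt.RankStabilization
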