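import Pool.Agent.V5helper60.GM.Real9

/-!
# `μ = 0` for abelian extensions of imaginary quadratic fields: a criterion by one layer of the real subfield

Let `p` be odd and let `K / ℚ` be a finite Galois extension which is abelian over an imaginary quadratic
field `k`, with `p` prime to `[K : ℚ]`. By Iwasawa's theorem on `p`-extensions, it is enough for Q1 to
consider such `K` (the Galois closure over `ℚ` of an abelian extension of `k` is abelian over `k`). `K^ab`
is the largest subfield of `K` which is abelian over `ℚ`, `K⁺ = K ∩ ℝ`. For a number field `E` let `d(E)` be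
the order of `Cl(E) / p`. Let `r` be such that every homomorphism of `Gal(K / ℚ)` to `GL_n(F_p)` with
`n < r` has a commutative image. This holds for `r = 2`, and it holds if no prime divisor of
`[K : K^ab]` divides `p ^ j - 1` for some `0 < j < r`. Let `R` be the layer of degree `q = p ^ m` of the
cyclotomic `ℤ_p`-extension of `ℚ`. If

`d(K⁺ R) ^ 2 < p ^ (g (q - 1))`,

that is, if the `p`-rank of the class group of `K⁺ R` is less than `g (q - 1) / 2`, then
`d(K R') ≤ p ^ (s (q' - q)) d(K⁺ R) ^ 2 d(K^ab R')` for all layers `R'` which contain `R`, of degree `q'`, where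
`s = g - 1`, and `s = 0` if `g ≤ r`. So by the theorem of Ferrero and Washington, `μ = 0` for `K` if and only if
the inequality holds with `g = r` for one layer `R`, and this is also equivalent to the inequality for all
layers of large degree; and the number of positive `m_i` of `K` is at most `g - 1`, if the inequality holds
for `g` and one layer. In terms of the Iwasawa modules: if `t` of the `m_i` of `K⁺` are positive, then at
most `2 t` of the `m_i` of `K` are positive, and none if `2 t < r`. In particular `μ = 0` for `K` if and only if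
`μ = 0` for `K⁺`.

Proof. On the part of `Cl(K R) / p` which is not seen by `K^ab R`, the complex conjugation `c` acts
nontrivially: the commutators of `c` generate the commutator subgroup. As the abelian group `Gal(K / k)`
interchanges, up to duality, the parts fixed and not fixed by `c`, the order of this part is at most the
square of the order of the part fixed by `c`, so `d(K R) ≤ d(K⁺ R) ^ 2 d(K^ab R)`. So
`d(K R) / d(K^ab R) < p ^ (g (q - 1)) d(K) / d(K^ab)`, and the growth of the relative rank after `R` is bounded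
by the theorem on the concavity of the relative ranks (`RankStabilization`).
-/

set_option autoImplicit false

namespace Pool.Agent.Results.MP_b78433_nt.RealSubfieldCriterion

open IntermediateField Module Pool.Agent.Q60.MU Pool.Agent.W5h77.MB
open Pool.Agent.V5helper60.GM

/-- The degree over `ℚ`. -/
noncomputable def deg (K : IntermediateField ℚ Qb) : ℕ := finrank ℚ K

/-- `K / ℚ` is a finite Galois extension. -/
def IsFiniteGalois (K : IntermediateField ℚ Qb) : Prop := FiniteDimensional ℚ K ∧ IsGalois ℚ K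

/-- `K` is an abelian extension of the imaginary quadratic field `k` (if `K` is Galois over `ℚ`). -/
def IsAbelianOver (ι : Qb →+* ℂ) (k K : IntermediateField ℚ Qb) : Prop :=
  deg k = 2 ∧ ¬ k ≤ realSub ι ∧ k ≤ K ∧ ∀ σ ∈ k.fixingSubgroup, ∀ τ ∈ k.fixingSubgroup, ∀ x ∈ K,
    σ (τ x) = τ (σ x)

/-- `d(K⁺ R) ≤ C` and `C ^ 2 < p ^ (g (p ^ m - 1))` for `K⁺ = K ∩ ℝ`. -/
def RealSmall (p : ℕ) (ι : Qb →+* ℂ) (K : IntermediateField ℚ Qb) (g m : ℕ)
    (R : IntermediateField ℚ Qb) (C : ℕ) : Prop :=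
  DegLe p ((K ⊓ realSub ι) ⊔ R) C ∧ C ^ 2 < p ^ (g * (p ^ m - 1))

/-- `d(K R') ≤ N p ^ (s (p ^ m' - p ^ m)) d(K^ab R')` for all layers `R'` (of degree `p ^ m'`) which
contain the layer `R` (of degree `p ^ m`). -/
def BoundAbove (p : ℕ) (K : IntermediateField ℚ Qb) (m : ℕ) (R : IntermediateField ℚ Qb)
    (N s : ℕ) : Prop :=
  ∀ (m' : ℕ) (R' : IntermediateField ℚ Qb) (T : ℕ), IsLayer p m' R' → R ≤ R' →
    DegLe p (abPart K ⊔ R') T → DegLe p (K ⊔ R') (N * p ^ (s * (p ^ m' - p ^ m)) * T)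

/-- `d(K R) ≤ C p ^ (s [R : ℚ])` for all layers `R`, that is, at most `s` of the `m_i` are positive. -/
def RateAtMost (p : ℕ) (K : IntermediateField ℚ Qb) (s : ℕ) : Prop :=
  ∃ C, ∀ (m : ℕ) (R : IntermediateField ℚ Qb), IsLayer p m R → DegLe p (K ⊔ R) (C * p ^ (s * p ^ m))

/-- `μ = 0` for `K` if and only if `μ = 0` for `K^ab` and `P` holds for one layer `R` (of degree `p ^ m`);
and if and only if `μ = 0` for `K^ab` and `P` holds for all layers of large degree. -/
def Criterion (p : ℕ) (K : IntermediateField ℚ Qb) (P : ℕ → IntermediateField ℚ Qb → Prop) : Prop :=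
  (MuZero p K ↔ MuZero p (abPart K) ∧ ∃ m R, IsLayer p m R ∧ P m R) ∧
  (MuZero p K ↔ MuZero p (abPart K) ∧ ∃ m₀, ∀ m ≥ m₀, ∀ R, IsLayer p m R → P m R)

/-- No prime divisor of `[K : K^ab]` divides `p ^ j - 1` for some `0 < j < r`. -/
def NoPrime (p : ℕ) (K : IntermediateField ℚ Qb) (r : ℕ) : Prop :=
  ∀ n l j : ℕ, deg K = n * deg (abPart K) → l.Prime → l ∣ n → 0 < j → j < r →
    ¬ l ∣ p ^ j - 1

/-- If at most `t` of the `m_i` of `K⁺ = K ∩ ℝ` are positive, then at most `2 t` of those of `K`; and at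
most as many for `K⁺` as for `K`. -/
def Comparison (p : ℕ) (ι : Qb →+* ℂ) (K : IntermediateField ℚ Qb) : Prop :=
  ∀ t : ℕ, (RateAtMost p (K ⊓ realSub ι) t → RateAtMost p K (2 * t)) ∧
    (RateAtMost p K t → RateAtMost p (K ⊓ realSub ι) t)

theorem result (p : ℕ) (hp : p.Prime) (hp2 : p ≠ 2) (ι : Qb →+* ℂ) (k K : IntermediateField ℚ Qb)
    (hK : IsFiniteGalois K) (hkK : IsAbelianOver ι k K) (hpK : ¬ p ∣ deg K) :
    (∀ r : ℕ, NoSmall p K r →
      (∀ g s m R C, IsLayer p m R → RealSmall p ι K g m R C → (g ≤ s + 1 ∨ g ≤ r) →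
        BoundAbove p K m R (C ^ 2) s) ∧
      (0 < r → Criterion p K (fun m R => ∃ C, RealSmall p ι K r m R C)) ∧
      ∀ t, 2 * t < r →
        (MuZero p K ↔ MuZero p (abPart K) ∧ RateAtMost p (K ⊓ realSub ι) t)) ∧
    (MuZero p (abPart K) → Comparison p ι K ∧
      ∀ s m R C, IsLayer p m R → RealSmall p ι K (s + 1) m R C → RateAtMost p K s) ∧
    NoSmall p K 2 ∧ (∀ r : ℕ, NoPrime p K r → NoSmall p K r) := by
  have hpf : Fact p.Prime := ⟨hp⟩
  obtain ⟨hfK, hgK⟩ := hK
  obtain ⟨hk, hki, -, hab⟩ := hkK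
  have hle : abPart K ≤ K := abPart_le K
  refine ⟨fun r hr => ?_, ?_, noSmall_two p K, fun r h => ?_⟩
  · have hbd : ∀ g s m R C, IsLayer p m R → RealSmall p ι K g m R C → (g ≤ s + 1 ∨ g ≤ r) →
        BoundAbove p K m R (C ^ 2) s := by
      rintro g s m R C hR ⟨hC, hCr⟩ hgs m' R' T hR' hRR hT
      exact real_rate hp2 hk hki hab hpK hr hgs hR hR' hRR hC hCr hT
    refine ⟨hbd, fun hr0 => ?_, fun t ht => ⟨fun h => ⟨mu_down hp hle h, ?_⟩, ?_⟩⟩
    rotate_left
    · obtain ⟨C, hC⟩ := mu_down hp (F := K ⊓ realSub ι) inf_le_left h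
      refine ⟨C, fun m R hR => degLe_mono (hC m R hR) ?_⟩
      exact Nat.le_mul_of_pos_right _ (pow_pos hp.pos _)
    · rintro ⟨h1, h2⟩
      exact (real_rates (t := t) hp2 hk hki hab hpK h2 h1).2 r hr ht
    have h3 : ∀ m R, IsLayer p m R → (∃ C, RealSmall p ι K r m R C) → MuZero p (abPart K) →
        MuZero p K := by
      rintro m R hR ⟨C, hC⟩ ⟨T, hT⟩
      refine Pool.Agent.W5h33.DF.mu_of_above hR ⟨C ^ 2 * T, fun m' R' hR' hRR => ?_⟩
      have h5 := hbd r 0 m R C hR hC (Or.inr le_rfl) m' R' T hR' hRR (hT m' R' hR')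
      rwa [zero_mul, pow_zero, mul_one] at h5
    have h4 : MuZero p K → ∃ m₀, ∀ m ≥ m₀, ∀ R, IsLayer p m R → ∃ C, RealSmall p ι K r m R C := by
      intro h
      obtain ⟨C, hC⟩ := mu_down hp (F := K ⊓ realSub ι) inf_le_left h
      exact ⟨C ^ 2 + 1, fun m hm R hR => ⟨C, hC m R hR, large1 hr0 hm⟩⟩
    refine ⟨⟨fun h => ⟨mu_down hp hle h, ?_⟩, ?_⟩, ⟨fun h => ⟨mu_down hp hle h, h4 h⟩, ?_⟩⟩
    · obtain ⟨m₀, hm₀⟩ := h4 h
      obtain ⟨R, hR⟩ := Pool.Agent.V5helper65.GM.t_LAY p hp hp2 m₀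
      exact ⟨m₀, R, hR, hm₀ m₀ le_rfl R hR⟩
    · rintro ⟨h, m, R, hR, hP⟩
      exact h3 m R hR hP h
    · rintro ⟨h, m₀, hm₀⟩
      obtain ⟨R, hR⟩ := Pool.Agent.V5helper65.GM.t_LAY p hp hp2 m₀
      exact h3 m₀ R hR (hm₀ m₀ le_rfl R hR) h
  · refine fun hmu => ⟨fun t => ⟨fun h => (real_rates (t := t) hp2 hk hki hab hpK h hmu).1,
      fun h => rates_down inf_le_left h⟩, ?_⟩
    rintro s m R C hR ⟨hC, hCr⟩
    exact real_rate_le hp2 hk hki hab hpK hR hC hCr hmu
  · have hfA : FiniteDimensional ℚ (abPart K) := Pool.Agent.W5h33.DF.fd_of_le hle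
    have hdvd : ∃ n, finrank ℚ K = n * finrank ℚ (abPart K) := by
      have hKidx : finrank ℚ K = K.fixingSubgroup.index := finrank_eq_fixingSubgroup_index Qb K
      have hFidx : finrank ℚ (abPart K) = (abPart K).fixingSubgroup.index :=
        finrank_eq_fixingSubgroup_index Qb (abPart K)
      have h5 := Subgroup.relIndex_mul_index (fixingSubgroup_le hle)
      exact ⟨_, by rw [hKidx, hFidx]; exact h5.symm⟩
    obtain ⟨n, hn⟩ := hdvd
    exact noSmall_of_prime Pool.Agent.V5helper69.GM.t_GLN hpK hn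
      fun l hl hln j hj hjr => h n l j hn hl hln hj hjr

end Pool.Agent.Results.MP_b78433_nt.RealSubfieldCriterion
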